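import Pool.Agent.Run7.h307.WM.Geo

/-!
# Degenerations with several parameters over a p-adic field: definitions

`K` is a finite extension of `ℚ_p` whose residue field has `q` elements, `B` is a smooth variety over `K`,
`D = D_1 ∪ … ∪ D_r` is a divisor with strict normal crossings on `B`, `D_j` is given by `u_j = 0`,
and `0 ∈ B(K)` lies on `D_1, …, D_r`. `f : 𝒳 → B` is projective, and smooth over `B - D` with unipotent
local monodromy at `0`. We choose a curve `C → B` through `0`, `u_j = (unit) u ^ (a_j)`, with integers
`a_j ≥ 1`, such that the family over `C` has a semistable model, with degenerate fibre `Y` over `0`. (By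
semistable reduction in characteristic zero there are always such `C`.)
-/

set_option autoImplicit false

namespace Run7.h307.WM2

open Module Pool.Agent.Y143 Run7.h307.WM

/-- The cone of the logarithms of the local monodromies: `N j i` is the logarithm of the monodromy
around `D_j` on the limit cohomology `V i`, and `a j` is the multiplicity of `D_j` along the curve
`C`. -/
structure ConeData {Ω : Type} [Field Ω] {Y : StrataData Ω} (L : LimitData Y) (r : ℕ) where
  a : Fin r → ℕ
  N : Fin r → ∀ i, Module.End Ω (L.V i)

/-- The geometric monodromy of the family over `C` is `N = ∑ a_j N_j`, with `a_j ≥ 1`; the `N_j`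
commute with each other and with the logarithm of the inertia group of `K`, and
`N_j Φ = q Φ N_j` for the Frobenius. `monodromy`: all positive combinations `∑ b_j N_j` have the same
monodromy filtration (Cattani-Kaplan). -/
structure ConeData.IsCone {Ω : Type} [Field Ω] {Y : StrataData Ω} {L : LimitData Y} {r : ℕ}
    (T : ConeData L r) (q : ℕ) : Prop where
  pos : ∀ j, 0 < T.a j
  sum : ∀ i, L.N i = ∑ j, (T.a j : Ω) • T.N j i
  N_frob : ∀ j i, QCommute q (L.frob i) (T.N j i)
  N_mon : ∀ j i v, T.N j i (L.mon i v) = L.mon i (T.N j i v)
  N_comm : ∀ j k i v, T.N j i (T.N k i v) = T.N k i (T.N j i v)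
  monodromy : ∀ b : Fin r → ℕ, (∀ j, 0 < b j) → ∀ i : ℕ,
    IsMonodromyFiltration (∑ j, (b j : Ω) • T.N j i) (fun s => L.W i (i + s))

/-- The fibres `X_t` of `f : 𝒳 → B` over the points `t ∉ D`, with values in finite extensions `K(t)` of
`K`, of a `p`-adic polydisc around `0`, over the complement of `D` in which the higher direct images
are a Kummer local system (local constancy: such a polydisc exists). For such a point `t`,

* `deg t` and `ram t` are the residue degree and the ramification index of `K(t) / K`, and `val t j` is
  the normalized valuation of `u_j(t)` in `K(t)`; so `val t j / ram t` is the valuation of `u_j(t)` which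
  extends the normalized valuation of `K`;
* `F t i` is the cohomology in degree `i` of `X_t` (as an `Ω`-vector space), `frob t i` is the action of
  (a lift of) the geometric Frobenius of `K(t)`, and `mon t i` is the monodromy operator over `K(t)`;
* `θ t i` is the isomorphism of the limit cohomology with `F t i` given by the local constancy;
* `κ t j` and `μ t` are constants which depend on the choice of the lift of the Frobenius, see
  `IsLocallyConstant`. -/
structure PolyFibres {Ω : Type} [Field Ω] {Y : StrataData Ω} (L : LimitData Y) (r : ℕ) where
  Point : Type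
  deg : Point → ℕ
  ram : Point → ℕ
  val : Point → Fin r → ℕ
  κ : Point → Fin r → Ω
  μ : Point → Ω
  F : Point → ℕ → Type
  [addCommGroup : ∀ t i, AddCommGroup (F t i)]
  [module : ∀ t i, Module Ω (F t i)]
  frob : ∀ t i, Module.End Ω (F t i)
  mon : ∀ t i, Module.End Ω (F t i)
  θ : ∀ t i, L.V i ≃ₗ[Ω] F t i

attribute [instance] PolyFibres.addCommGroup PolyFibres.module

/-- The valuations `v(u_j(t))`, extending the normalized valuation of `K`. -/
def PolyFibres.valuation {Ω : Type} [Field Ω] {Y : StrataData Ω} {L : LimitData Y} {r : ℕ}
    (X : PolyFibres L r) (t : X.Point) (j : Fin r) : ℚ := (X.val t j : ℚ) / (X.ram t : ℚ)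

/-- Local constancy over the complement of `D` in the polydisc: `F t i` is the limit cohomology
`V i`, twisted by the Kummer cocycles of the `u_j(t)`. The monodromy operator of `X_t` is
`ram(t) N_K + ∑ v(u_j(t)) N_j` (normalized valuations of `K(t)`), where `N_K` is the monodromy operator
over `K`, and the Frobenius is `Φ ^ deg exp(μ N_K) exp(∑ κ_j N_j)`. -/
structure PolyFibres.IsLocallyConstant {Ω : Type} [Field Ω] {Y : StrataData Ω} {L : LimitData Y}
    {r : ℕ} (X : PolyFibres L r) (T : ConeData L r) : Prop where
  ram_pos : ∀ t, 0 < X.ram t
  mon_θ : ∀ t i, IsIntertwiner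
    ((X.ram t : Ω) • L.mon i + ∑ j, (X.val t j : Ω) • T.N j i) (X.mon t i) (X.θ t i)
  frob_θ : ∀ t i, IsIntertwiner
    (L.frob i ^ X.deg t * (nexp (X.μ t • L.mon i) * nexp (∑ j, X.κ t j • T.N j i)))
    (X.frob t i) (X.θ t i)

/-- A projective family over a neighbourhood of `0` in the smooth variety `B` over `K`, which is
smooth outside the normal crossing divisor `D = D_1 ∪ … ∪ D_r`: the semistable degeneration over a
curve `C` through `0`, the cone of the logarithms of the local monodromies, and the fibres over the
points (over finite extensions of `K`) of the complement of `D` in a polydisc around `0`. -/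
structure PolyFamily (Ω : Type) [Field Ω] [CharZero Ω] (n q r : ℕ) extends Degeneration Ω n q where
  cone : ConeData limit r
  isCone : cone.IsCone q
  fibres : PolyFibres limit r
  locallyConstant : fibres.IsLocallyConstant cone

end Run7.h307.WM2
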