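import Pool.Agent.Run7.h307.WM2.Poly
import Pool.Agent.Run7.h307.WM2.Defs

/-!
# Mw purity of the operators `e N₂ + ∑ v_j N_j`
-/

set_option autoImplicit false

namespace Run7.h307.WM2

open Module Pool.Agent.Y143 Pool.Agent.N184.HP Pool.Agent.N184.HK Run7.h307.WM

section

variable {Ω V : Type} [Field Ω] [CharZero Ω] [AddCommGroup V] [Module Ω V] [IsAlgClosed Ω]
  [FiniteDimensional Ω V] {r : ℕ}

omit [CharZero Ω] [IsAlgClosed Ω] [FiniteDimensional Ω V] in
lemma sum_comm_frob {q : ℕ} {Φ N₂ : Module.End Ω V} {N : Fin r → Module.End Ω V}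
    (t2 : ∀ x, N₂ (Φ x) = (q : Ω) • Φ (N₂ x)) (t : ∀ j x, N j (Φ x) = (q : Ω) • Φ (N j x))
    (e : Ω) (c : Fin r → Ω) (x : V) :
    (e • N₂ + ∑ j, c j • N j) (Φ x) = (q : Ω) • Φ ((e • N₂ + ∑ j, c j • N j) x) := by
  simp only [LinearMap.add_apply, LinearMap.smul_apply, LinearMap.sum_apply, t2, t, map_add,
    map_smul, map_sum, smul_add, Finset.smul_sum]
  congr 1
  · rw [smul_comm]
  · refine Finset.sum_congr rfl fun j _ => ?_
    rw [smul_comm]

/-- For `c` outside the zero set of a nonzero polynomial the powers of `N₂ + ∑ c_j N_j` are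
isomorphisms between the weight spaces. -/
theorem generic_multi {q : ℕ} {n : ℤ} {Φ N₁ N₂ : Module.End Ω V} {M : ℤ → Submodule Ω V}
    (H : Hyp q n Φ N₁ N₂ M) (N : Fin r → Module.End Ω V) (a : Fin r → Ω)
    (hN : N₁ = ∑ j, a j • N j) (t : ∀ j x, N j (Φ x) = (q : Ω) • Φ (N j x)) :
    ∃ P : MvPolynomial (Fin r) Ω, P ≠ 0 ∧ ∀ c : Fin r → Ω, MvPolynomial.eval c P ≠ 0 →
      ∀ b : ℕ, Set.BijOn (⇑((N₂ + ∑ j, c j • N j) ^ b))
        (WS q Φ (n + b) : Set V) (WS q Φ (n - b) : Set V) := by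
  classical
  obtain ⟨S, hS, hbij⟩ := H.generic_all
  obtain ⟨c₀, hc₀⟩ := hS.exists_notMem
  have e0 : N₂ + c₀ • N₁ = N₂ + ∑ j, (c₀ * a j) • N j := by
    rw [hN, Finset.smul_sum]
    congr 1
    exact Finset.sum_congr rfl fun j _ => by rw [smul_smul]
  have hmaps : ∀ (b : ℕ) (c : Fin r → Ω), ∀ x ∈ (WS q Φ (n + b) : Submodule Ω V),
      ((N₂ + ∑ j, c j • N j) ^ b) x ∈ WS q Φ (n - b) := by
    intro b c x hx
    refine N_pow_WS H.hq (fun y => ?_) b (by ring) hx
    have := sum_comm_frob H.t2 t 1 c y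
    rwa [one_smul] at this
  choose P hP0 hP using fun b : ℕ => exists_poly N₂ N (WS q Φ (n + b)) (WS q Φ (n - b)) b (hmaps b)
    (fun j => c₀ * a j) (by rw [← e0]; exact hbij c₀ hc₀ b)
  obtain ⟨B, hB⟩ := WS_bot (Φ := Φ) H.hq
  refine ⟨∏ b ∈ Finset.range (|n| + |B| + 1).toNat, P b, ?_, ?_⟩
  · exact Finset.prod_ne_zero_iff.2 fun b _ => hP0 b
  · intro c hc b
    by_cases ha : b < (|n| + |B| + 1).toNat
    · apply hP b c
      intro h
      apply hc
      rw [map_prod]
      exact Finset.prod_eq_zero (Finset.mem_range.2 ha) h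
    · have h1 := abs_nonneg n
      have h2 := abs_nonneg B
      have h3 := le_abs_self B
      have h4 := le_abs_self n
      have h5 := neg_abs_le n
      have e1 : WS q Φ (n + b) = ⊥ := hB _ (by rw [lt_abs]; left; omega)
      have e2 : WS q Φ (n - b) = ⊥ := hB _ (by rw [lt_abs]; right; omega)
      rw [e1, e2]
      refine ⟨?_, ?_, ?_⟩
      · intro x hx
        rw [SetLike.mem_coe, Submodule.mem_bot] at hx ⊢
        rw [hx, map_zero]
      · intro x hx y hy _
        rw [SetLike.mem_coe, Submodule.mem_bot] at hx hy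
        rw [hx, hy]
      · intro y hy
        rw [SetLike.mem_coe, Submodule.mem_bot] at hy
        exact ⟨0, zero_mem _, by rw [hy, map_zero]⟩

/-- The powers of `N₂ + ∑ c_j N_j` are isomorphisms between the weight spaces. -/
def IsGood (q : ℕ) (n : ℤ) (Φ N₂ : Module.End Ω V) (N : Fin r → Module.End Ω V) (c : Fin r → ℚ) :
    Prop :=
  ∀ b : ℕ, Set.BijOn (⇑((N₂ + ∑ j, (c j : Ω) • N j) ^ b))
    (WS q Φ (n + b) : Set V) (WS q Φ (n - b) : Set V)

/-- Mw purity for good valuations. -/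
theorem pure_of_good {q : ℕ} {n : ℤ} {Φ N₁ N₂ : Module.End Ω V} {M : ℤ → Submodule Ω V}
    (H : Hyp q n Φ N₁ N₂ M) (N : Fin r → Module.End Ω V)
    (t : ∀ j x, N j (Φ x) = (q : Ω) • Φ (N j x))
    (hroots : ∀ e ∈ Φ.charpoly.roots, ∃ w : ℤ, IsWeilNumber q w e)
    (e : ℕ) (v : Fin r → ℕ) (f : ℕ) (he : 0 < e)
    (hv : IsGood q n Φ N₂ N (fun j => (v j : ℚ) / (e : ℚ))) (κ : Fin r → Ω) (μ : Ω) :
    IsMWPure (q ^ f) n (Φ ^ f * (nexp (μ • N₂) * nexp (∑ j, κ j • N j)))
        ((e : Ω) • N₂ + ∑ j, (v j : Ω) • N j) := by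
  have he' : (e : Ω) ≠ 0 := Nat.cast_ne_zero.2 he.ne'
  obtain ⟨c, hc⟩ : ∃ c : Fin r → Ω, c = fun j => (((v j : ℚ) / (e : ℚ) : ℚ) : Ω) := ⟨_, rfl⟩
  have hb : ∀ b : ℕ, Set.BijOn (⇑((N₂ + ∑ j, c j • N j) ^ b))
      (WS q Φ (n + b) : Set V) (WS q Φ (n - b) : Set V) := by rw [hc]; exact hv
  have eN : (e : Ω) • N₂ + ∑ j, (v j : Ω) • N j = (e : Ω) • (N₂ + ∑ j, c j • N j) := by
    rw [smul_add, Finset.smul_sum, hc]
    congr 1
    refine Finset.sum_congr rfl fun j _ => ?_
    rw [smul_smul]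
    congr 1
    push_cast
    field_simp
  rw [eN]
  have tc : ∀ x, (N₂ + ∑ j, c j • N j) (Φ x) = (q : Ω) • Φ ((N₂ + ∑ j, c j • N j) x) := by
    intro x
    have := sum_comm_frob H.t2 t 1 c x
    rwa [one_smul] at this
  apply tom' H.hq n f hroots
  · intro x
    rw [LinearMap.smul_apply, LinearMap.smul_apply, tc, map_smul, smul_comm]
  · intro j
    rw [smul_pow]
    apply bijOn_of'
    · intro x hx
      exact Submodule.smul_mem _ _ ((hb j).mapsTo hx)
    · intro x hx h0
      rw [LinearMap.smul_apply] at h0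
      have h1 := (smul_eq_zero.1 h0).resolve_left (pow_ne_zero j he')
      exact (hb j).injOn hx (zero_mem _) (by rw [h1, map_zero])
    · intro y hy
      obtain ⟨x, hx, hxy⟩ := (hb j).surjOn hy
      refine ⟨((e : Ω) ^ j)⁻¹ • x, Submodule.smul_mem _ _ hx, ?_⟩
      rw [LinearMap.smul_apply, map_smul, smul_smul, mul_inv_cancel₀ (pow_ne_zero j he'), one_smul]
      exact hxy
  · intro c' x hx
    have key : ∀ {N : Module.End Ω V} (_ : ∀ x, N (Φ x) = (q : Ω) • Φ (N x)) (x : V),
        x ∈ eig Φ (P_TOM.Le Ω q c') → nexp N x - x ∈ eig Φ (P_TOM.Le Ω q (c' - 1)) := by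
      intro N hN x hx
      rw [nexp_sub]
      refine Submodule.sum_mem _ fun k _ => Submodule.smul_mem _ _ ?_
      have h1 := P_TOM.N_pow_Le H.hq hN (k + 1) c' x hx
      exact eig_mono (P_TOM.Le_mono q (by push_cast; omega)) h1
    have s1 : ∀ x, (∑ j, κ j • N j) (Φ x) = (q : Ω) • Φ ((∑ j, κ j • N j) x) := by
      intro x
      have := sum_comm_frob H.t2 t 0 κ x
      rwa [zero_smul, zero_add] at this
    have s2 : ∀ x, (μ • N₂) (Φ x) = (q : Ω) • Φ ((μ • N₂) x) := by
      intro x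
      rw [LinearMap.smul_apply, LinearMap.smul_apply, H.t2, map_smul, smul_comm]
    rw [Module.End.mul_apply, ← map_sub]
    apply pow_stab (fun y hy => P_TOM.Phi_eig Φ _ y hy) f
    rw [Module.End.mul_apply]
    have h1 := key s1 x hx
    have h2 : nexp (∑ j, κ j • N j) x ∈ eig Φ (P_TOM.Le Ω q c') := by
      have := Submodule.add_mem _ (eig_mono (P_TOM.Le_mono q (by omega)) h1) hx
      rwa [sub_add_cancel] at this
    have h3 := key s2 _ h2
    have := Submodule.add_mem _ h3 h1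
    rwa [sub_add_sub_cancel] at this

end

/-- **The fibres near a normal crossing fibre are mw pure**, for several parameters. -/
theorem main {Ω : Type} [Field Ω] [CharZero Ω] [IsAlgClosed Ω] {n q r : ℕ} (hq : 1 < q)
    (X : PolyFamily Ω n q r) (h : X.StrataPure) :
    ∃ S : Set (Fin r → ℚ), (∃ P : MvPolynomial (Fin r) ℚ, P ≠ 0 ∧ ∀ c ∈ S, MvPolynomial.eval c P = 0) ∧
      (∀ b : Fin r → ℕ, (∀ j, 0 < b j) → {s : ℚ | (fun j => s * b j) ∈ S}.Finite) ∧
      ∀ t : X.fibres.Point, X.fibres.valuation t ∉ S →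
        ∀ i : ℕ, IsMWPure (q ^ X.fibres.deg t) i (X.fibres.frob t i) (X.fibres.mon t i) := by
  have hfin := fun i => (X.limitSpace i).finite
  have hyp := fun i => Degeneration.hyp (X := X.toDegeneration) hq h i
  refine ⟨{c | ∃ i ∈ Finset.range (2 * n + 1), ¬ IsGood q i (X.limit.frob i) (X.limit.mon i)
    (fun j => X.cone.N j i) c}, ?_, ?_, ?_⟩
  · choose P hP0 hP using fun i => generic_multi (hyp i)
      (fun j => X.cone.N j i) (fun j => (X.cone.a j : Ω)) (X.isCone.sum i)
      (fun j => X.isCone.N_frob j i)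
    choose Q hQ0 hQ using fun i => exists_rat (hP0 i)
    refine ⟨∏ i ∈ Finset.range (2 * n + 1), Q i, Finset.prod_ne_zero_iff.2 fun i _ => hQ0 i, ?_⟩
    rintro c ⟨i, hi, hc⟩
    rw [map_prod]
    apply Finset.prod_eq_zero hi
    by_contra h0
    exact hc (hP i _ (hQ i c h0))
  · intro b hb
    have key : ∀ i : ℕ, {s : ℚ | ¬ IsGood q i (X.limit.frob i) (X.limit.mon i)
        (fun j => X.cone.N j i) (fun j => s * b j)}.Finite := by
      intro i
      have H : Hyp q i (X.limit.frob i) (∑ j, (b j : Ω) • X.cone.N j i) (X.limit.mon i)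
          (fun j => X.limit.W i (i + j)) :=
        { hq := hq
          mon := X.isCone.monodromy b hb i
          stab := (hyp i).stab
          stab2 := (hyp i).stab2
          comm := by
            intro x
            simp only [LinearMap.sum_apply, LinearMap.smul_apply, map_sum, map_smul,
              X.isCone.N_mon]
          t1 := by
            intro x
            have := sum_comm_frob (hyp i).t2 (fun j => X.isCone.N_frob j i) 0 (fun j => (b j : Ω)) x
            rwa [zero_smul, zero_add] at this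
          t2 := (hyp i).t2
          pure := (hyp i).pure }
      obtain ⟨S, hS, hbij⟩ := H.generic_all
      have hfin' : {s : ℚ | (s : Ω) ∈ S}.Finite := hS.preimage (Rat.cast_injective.injOn)
      refine hfin'.subset ?_
      intro s hs
      by_contra h0
      apply hs
      intro k
      have h1 := hbij (s : Ω) h0 k
      have h2 : X.limit.mon i + (s : Ω) • ∑ j, (b j : Ω) • X.cone.N j i =
          X.limit.mon i + ∑ j, ((s * b j : ℚ) : Ω) • X.cone.N j i := by
        rw [Finset.smul_sum]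
        congr 1
        refine Finset.sum_congr rfl fun j _ => ?_
        rw [smul_smul]
        push_cast
        rfl
      rwa [h2] at h1
    refine (Set.Finite.biUnion (Finset.finite_toSet (Finset.range (2 * n + 1)))
      fun i _ => key i).subset ?_
    rintro s ⟨i, hi, hc⟩
    exact Set.mem_biUnion (Finset.mem_coe.2 hi) hc
  · intro t ht i
    have hX := X.locallyConstant
    refine pure_transport (X.fibres.θ t i) ?_ (hX.frob_θ t i) (hX.mon_θ t i)
    by_cases hi : i ∈ Finset.range (2 * n + 1)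
    · apply pure_of_good (hyp i) (fun j => X.cone.N j i) (fun j => X.isCone.N_frob j i)
        (Degeneration.roots hq h i) (X.fibres.ram t) (X.fibres.val t) (X.fibres.deg t)
        (hX.ram_pos t)
      by_contra h0
      exact ht ⟨i, hi, h0⟩
    · have h0 : ∀ v : X.limit.V i, v = 0 :=
        Degeneration.V_zero (X := X.toDegeneration) (by simpa using hi)
      have hall : ∀ (P : Submodule Ω (X.limit.V i)) (x : X.limit.V i), x ∈ P := by
        intro P x
        rw [h0 x]
        exact zero_mem _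
      refine ⟨fun _ => ⊥, ⟨fun _ _ _ => le_rfl, ⟨0, rfl⟩, ⟨0, ?_⟩, fun _ _ _ => hall _ _,
        fun _ _ _ _ => hall _ _, fun _ y _ => ⟨y, hall _ _, hall _ _⟩⟩, fun _ _ _ => hall _ _,
        fun a α x _ hx _ => absurd (hall _ _) hx⟩
      rw [eq_comm, eq_bot_iff]
      intro x _
      exact hall _ _

end Run7.h307.WM2
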