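import Pool.Agent.Run7.h307.WM.Main

/-!
# Generic bijectivity of `(N₂ + ∑ c_j N_j) ^ a`
-/

set_option autoImplicit false

namespace Run7.h307.WM2

open Module Pool.Agent.Y143 Pool.Agent.N184.HP Pool.Agent.N184.HK Run7.h307.WM

section

variable {Ω V : Type} [Field Ω] [AddCommGroup V] [Module Ω V] [FiniteDimensional Ω V] {r : ℕ}

open MvPolynomial in
/-- If `(N₂ + ∑ c_j N_j) ^ a` is a bijection from `A` to `B` for one `c`, this is so for all `c` at
which a certain nonzero polynomial does not vanish. -/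
theorem exists_poly (N₂ : Module.End Ω V) (N : Fin r → Module.End Ω V) (A B : Submodule Ω V)
    (a : ℕ) (hmaps : ∀ c : Fin r → Ω, ∀ x ∈ A, ((N₂ + ∑ j, c j • N j) ^ a) x ∈ B)
    (c₀ : Fin r → Ω) (h0 : Set.BijOn (⇑((N₂ + ∑ j, c₀ j • N j) ^ a)) (A : Set V) (B : Set V)) :
    ∃ P : MvPolynomial (Fin r) Ω, P ≠ 0 ∧ ∀ c, MvPolynomial.eval c P ≠ 0 →
      Set.BijOn (⇑((N₂ + ∑ j, c j • N j) ^ a)) (A : Set V) (B : Set V) := by
  classical
  let L : (Fin r → Ω) → (A →ₗ[Ω] B) := fun c => ((N₂ + ∑ j, c j • N j) ^ a).restrict (hmaps c)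
  have hL0 : Function.Bijective (L c₀) := by
    constructor
    · intro x y hxy
      exact Subtype.ext (h0.injOn x.2 y.2 (congrArg Subtype.val hxy))
    · rintro ⟨y, hy⟩
      obtain ⟨x, hx, hxy⟩ := h0.surjOn hy
      exact ⟨⟨x, hx⟩, Subtype.ext hxy⟩
  have hdim : finrank Ω A = finrank Ω B :=
    LinearEquiv.finrank_eq (LinearEquiv.ofBijective (L c₀) hL0)
  obtain ⟨k, hk⟩ : ∃ k, finrank Ω A = k := ⟨_, rfl⟩
  have hk' : finrank Ω B = k := by rw [← hdim, hk]
  let bV := Module.finBasis Ω V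
  let bA := Module.finBasisOfFinrankEq Ω A hk
  let bB := Module.finBasisOfFinrankEq Ω B hk'
  obtain ⟨π, hπ⟩ := B.subtype.exists_leftInverse_of_injective B.ker_subtype
  let PM : Matrix (Fin (finrank Ω V)) (Fin (finrank Ω V)) (MvPolynomial (Fin r) Ω) :=
    (C : Ω →+* MvPolynomial (Fin r) Ω).mapMatrix (LinearMap.toMatrix bV bV N₂) +
      ∑ j, (X j : MvPolynomial (Fin r) Ω) •
        (C : Ω →+* MvPolynomial (Fin r) Ω).mapMatrix (LinearMap.toMatrix bV bV (N j))
  let Q : Matrix (Fin k) (Fin k) (MvPolynomial (Fin r) Ω) :=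
    ((LinearMap.toMatrix bV bB π).map (C : Ω →+* MvPolynomial (Fin r) Ω) :
        Matrix (Fin k) (Fin (finrank Ω V)) (MvPolynomial (Fin r) Ω)) * PM ^ a *
      ((LinearMap.toMatrix bA bV A.subtype).map (C : Ω →+* MvPolynomial (Fin r) Ω) :
        Matrix (Fin (finrank Ω V)) (Fin k) (MvPolynomial (Fin r) Ω))
  have hPM : ∀ c : Fin r → Ω, (eval c).mapMatrix PM =
      LinearMap.toMatrix bV bV (N₂ + ∑ j, c j • N j) := by
    intro c
    ext i j
    simp only [PM, RingHom.mapMatrix_apply, Matrix.map_apply, Matrix.add_apply, Matrix.sum_apply,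
      Matrix.smul_apply, map_add, map_sum, eval_C, smul_eq_mul, map_mul, eval_X, map_smul]
  have hcomp : ∀ c : Fin r → Ω, L c = π ∘ₗ ((N₂ + ∑ j, c j • N j) ^ a) ∘ₗ A.subtype := by
    intro c
    apply LinearMap.ext
    intro x
    have := LinearMap.congr_fun hπ (L c x)
    rw [LinearMap.comp_apply, LinearMap.id_apply] at this
    rw [← this]
    rfl
  have hQ : ∀ c : Fin r → Ω, (eval c).mapMatrix Q = LinearMap.toMatrix bA bB (L c) := by
    intro c
    rw [hcomp, LinearMap.toMatrix_comp bA bV bB, LinearMap.toMatrix_comp bA bV bV,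
      ← LinearMap.toMatrix_pow, ← hPM, ← map_pow, ← Matrix.mul_assoc]
    simp only [Q, RingHom.mapMatrix_apply, Matrix.map_mul]
    congr 1
    · congr 1
      ext i j
      simp
    · ext i j
      simp
  have hdet : ∀ c : Fin r → Ω, eval c Q.det = (LinearMap.toMatrix bA bB (L c)).det := by
    intro c
    rw [RingHom.map_det, hQ]
  have hiff : ∀ c : Fin r → Ω, (LinearMap.toMatrix bA bB (L c)).det ≠ 0 →
      Function.Injective (L c) := by
    intro c hc
    rw [← LinearMap.ker_eq_bot, LinearMap.ker_eq_bot']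
    intro x hx
    have h1 : (LinearMap.toMatrix bA bB (L c)).mulVec (bA.repr x) = 0 := by
      rw [LinearMap.toMatrix_mulVec_repr, hx, map_zero]
      rfl
    have h3 := Matrix.eq_zero_of_mulVec_eq_zero hc h1
    apply bA.repr.injective
    apply Finsupp.ext
    intro i
    rw [map_zero]
    exact congrFun h3 i
  refine ⟨Q.det, ?_, fun c hc => ?_⟩
  · intro h
    have h1 : (LinearMap.toMatrix bA bB (L c₀)).det = 0 := by rw [← hdet, h, map_zero]
    obtain ⟨v, hv0, hv⟩ := Matrix.exists_mulVec_eq_zero_iff.2 h1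
    apply hv0
    let x : A := bA.equivFun.symm v
    have hx : (bA.repr x : Fin k → Ω) = v := by
      have := bA.equivFun.apply_symm_apply v
      exact this
    have h2 := LinearMap.toMatrix_mulVec_repr bA bB (L c₀) x
    rw [hx, hv] at h2
    have h3 : L c₀ x = 0 := by
      apply bB.repr.injective
      apply Finsupp.ext
      intro i
      rw [map_zero]
      exact (congrFun h2 i).symm
    have h4 : x = 0 := hL0.1 (by rw [h3, map_zero])
    rw [← hx, h4, map_zero]
    rfl
  · have hinj : Function.Injective (L c) := hiff c (by rw [← hdet]; exact hc)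
    have hsurj : Function.Surjective (L c) :=
      (LinearMap.injective_iff_surjective_of_finrank_eq_finrank hdim).1 hinj
    refine ⟨fun x hx => hmaps c x hx, fun x hx y hy hxy => ?_, fun y hy => ?_⟩
    · have : (⟨x, hx⟩ : A) = ⟨y, hy⟩ := hinj (Subtype.ext hxy)
      exact congrArg Subtype.val this
    · obtain ⟨x, hx⟩ := hsurj ⟨y, hy⟩
      exact ⟨x, x.2, congrArg Subtype.val hx⟩

end

open MvPolynomial in
/-- The rational points outside the zero set of a nonzero polynomial contain the complement of the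
zero set of a nonzero rational polynomial. -/
lemma exists_rat {Ω : Type} [Field Ω] [CharZero Ω] {r : ℕ} {P : MvPolynomial (Fin r) Ω}
    (hP : P ≠ 0) : ∃ Q : MvPolynomial (Fin r) ℚ, Q ≠ 0 ∧ ∀ c : Fin r → ℚ, eval c Q ≠ 0 →
      eval (fun j => (c j : Ω)) P ≠ 0 := by
  classical
  obtain ⟨m, hm⟩ := MvPolynomial.ne_zero_iff.1 hP
  obtain ⟨φ, hφ⟩ : ∃ φ : Module.Dual ℚ Ω, φ (P.coeff m) ≠ 0 := by
    by_contra h
    push Not at h
    exact hm ((Module.forall_dual_apply_eq_zero_iff ℚ _).1 h)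
  refine ⟨∑ d ∈ P.support, monomial d (φ (P.coeff d)), ?_, ?_⟩
  · rw [MvPolynomial.ne_zero_iff]
    refine ⟨m, ?_⟩
    rw [coeff_sum]
    simp only [coeff_monomial]
    rw [Finset.sum_ite_eq']
    rw [if_pos (MvPolynomial.mem_support_iff.2 hm)]
    exact hφ
  · intro c hc h
    apply hc
    rw [eval_eq'] at h
    have h1 : eval c (∑ d ∈ P.support, monomial d (φ (P.coeff d))) =
        φ (∑ d ∈ P.support, P.coeff d * ∏ i, (c i : Ω) ^ d i) := by
      rw [map_sum, map_sum]
      refine Finset.sum_congr rfl fun d _ => ?_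
      rw [eval_monomial, Finsupp.prod_fintype _ _ (fun i => pow_zero _)]
      have : P.coeff d * ∏ i, (c i : Ω) ^ d i = (∏ i, (c i) ^ d i : ℚ) • P.coeff d := by
        rw [Algebra.smul_def, mul_comm]
        congr 1
        simp
      rw [this, map_smul, smul_eq_mul, mul_comm]
    rw [h1, h, map_zero]

end Run7.h307.WM2
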