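import Pool.Agent.Run7.h307.WM2.Main
import Pool.Agent.Run7.h615.WL.PhiN

/-!
# The weight filtration of log cohomology
-/

set_option autoImplicit false

namespace Run7.h307.WM2

open Module Pool.Agent.Y143 Pool.Agent.N184.HP Pool.Agent.N184.HK Run7.h307.WM

/-- `P` is a finite increasing filtration, stable under the Frobenius `F`, and `F` has weight `w` on
`gr^P_w` for all `w`. -/
structure IsWeightFiltration {Ω V : Type} [Field Ω] [CharZero Ω] [AddCommGroup V] [Module Ω V]
    (q : ℕ) (F : Module.End Ω V) (P : ℤ → Submodule Ω V) : Prop where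
  mono : Monotone P
  bot : ∃ a, P a = ⊥
  top : ∃ a, P a = ⊤
  stable : ∀ w x, x ∈ P w → F x ∈ P w
  pure : ∀ (w : ℤ) (α : Ω) (x : V), x ∈ P w → x ∉ P (w - 1) → F x - α • x ∈ P (w - 1) →
    IsWeilNumber q w α

/-- The Kummer log etale cohomology `V = H^m` of a projective SNCL scheme over a log point whose
residue field is finite with `q` elements (with coefficients in `Ω`): the Frobenius `F`, the monodromy
operator `N`, and the weight filtration `P`, whose graded pieces are pure (Deligne). -/
structure LogCohomology (Ω : Type) [Field Ω] [CharZero Ω] (q : ℕ) where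
  V : Type
  [addCommGroup : AddCommGroup V]
  [module : Module Ω V]
  F : Module.End Ω V
  N : Module.End Ω V
  P : ℤ → Submodule Ω V
  finite : Module.Finite Ω V
  nilpotent : IsNilpotent N
  isWeight : IsWeightFiltration q F P

attribute [instance] LogCohomology.addCommGroup LogCohomology.module

/-- The conjecture of Kato in degree `m`: `P` is the monodromy filtration of `N`, centred at `m`. -/
def LogCohomology.Kato {Ω : Type} [Field Ω] [CharZero Ω] {q : ℕ} (Z : LogCohomology Ω q) (m : ℤ) :
    Prop := IsMonodromyFiltration Z.N (fun s => Z.P (m + s))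

section

variable {Ω V : Type} [Field Ω] [CharZero Ω] [IsAlgClosed Ω] [AddCommGroup V] [Module Ω V]
  [FiniteDimensional Ω V] {q : ℕ}

lemma eig_le_of_pure (hq : 1 < q) {F : Module.End Ω V} {P : ℤ → Submodule Ω V}
    (h : IsWeightFiltration q F P) (w : ℤ) : eig F (P_TOM.Le Ω q w) ≤ P w := by
  apply eig_le
  rintro α ⟨w', hw', hα⟩ x hx
  have h1 := P_FRM.WS_le hq (i := 0) h.mono h.top (fun a α x hx hx1 hα => by
    rw [add_zero]; exact h.pure a α x hx hx1 hα) w'
  rw [zero_add] at h1
  exact h.mono hw' (h1 (P_FRM.le_ES F (S := P_FRM.WW Ω q w') hα hx))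

lemma le_eig_of_pure {F : Module.End Ω V} {P : ℤ → Submodule Ω V}
    (h : IsWeightFiltration q F P) (w : ℤ) : P w ≤ eig F (P_TOM.Le Ω q w) := by
  intro x hx
  obtain ⟨y, z, hy, hy', hz, hz', hyz⟩ := WM.split (Φ := F) (Z := P w) inferInstance (h.stable w)
    (P_TOM.Le Ω q w) hx
  by_cases hz0 : z = 0
  · rw [hz0, add_zero] at hyz
    rw [← hyz]
    exact hy'
  exfalso
  obtain ⟨U, hU⟩ : ∃ U : Submodule Ω V, U = P w ⊓ eig F (P_TOM.Le Ω q w)ᶜ := ⟨_, rfl⟩
  have hUst : ∀ x ∈ U, F x ∈ U := by
    intro x hx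
    rw [hU] at hx ⊢
    exact ⟨h.stable _ x hx.1, P_TOM.Phi_eig F _ x hx.2⟩
  have hne : U ≠ ⊥ := by
    intro h0
    apply hz0
    have : z ∈ U := by rw [hU]; exact ⟨hz, hz'⟩
    rwa [h0, Submodule.mem_bot] at this
  have hnt : Nontrivial U := Submodule.nontrivial_iff_ne_bot.2 hne
  obtain ⟨α, hα⟩ := End.exists_eigenvalue (F.restrict hUst)
  obtain ⟨v, hv⟩ := hα.exists_hasEigenvector
  have hv0 : (v : V) ≠ 0 := fun h => hv.2 (Subtype.ext h)
  have hve : F (v : V) = α • (v : V) := by
    have := congrArg Subtype.val hv.apply_eq_smul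
    simpa using this
  have hvU : (v : V) ∈ P w ⊓ eig F (P_TOM.Le Ω q w)ᶜ := by
    rw [← hU]
    exact v.2
  obtain ⟨a0, ha0⟩ := h.bot
  have hx1 : ¬ (v : V) ∈ P a0 := by
    rw [ha0, Submodule.mem_bot]
    exact hv0
  have hab : a0 ≤ w := by
    by_contra hc
    exact hx1 (h.mono (by omega) hvU.1)
  obtain ⟨a, h1, h2, h3, h4⟩ := P_FRM.step (fun a => (v : V) ∈ P a) hx1 hab hvU.1
  have h5 : IsWeilNumber q a α := h.pure a α v h3 h4 (by
    rw [hve, sub_self]
    exact zero_mem _)
  have h6 : (v : V) ∈ eig F (P_TOM.Le Ω q w) := by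
    refine le_eig (S := P_TOM.Le Ω q w) ⟨a, h2, h5⟩ ?_
    rw [End.mem_maxGenEigenspace]
    refine ⟨1, ?_⟩
    simp [hve]
  exact hv0 (WM.mem_eig_disj h6 hvU.2)

/-- The weight filtration of a mw pure space is the monodromy filtration. -/
theorem isMonodromyFiltration_of_pure (hq : 1 < q) {m : ℤ} {F N : Module.End Ω V}
    {P : ℤ → Submodule Ω V} (h : IsWeightFiltration q F P) (hX : IsMWPure q m F N) :
    IsMonodromyFiltration N (fun s => P (m + s)) := by
  obtain ⟨M, hM, hst, hw⟩ := hX
  have h' : IsWeightFiltration q F (fun w => M (w - m)) :=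
    { mono := fun a b hab => hM.mono (by omega)
      bot := by
        obtain ⟨a, ha⟩ := hM.bot
        exact ⟨a + m, by rw [add_sub_cancel_right]; exact ha⟩
      top := by
        obtain ⟨a, ha⟩ := hM.top
        exact ⟨a + m, by rw [add_sub_cancel_right]; exact ha⟩
      stable := fun w x hx => hst _ x hx
      pure := by
        intro w α x hx hx1 hα
        rw [show w - 1 - m = w - m - 1 by ring] at hx1 hα
        have := hw (w - m) α x hx hx1 hα
        rwa [sub_add_cancel] at this }
  have e : (fun s => P (m + s)) = M := by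
    funext s
    apply le_antisymm
    · have := (le_eig_of_pure h (m + s)).trans (eig_le_of_pure hq h' (m + s))
      rwa [add_sub_cancel_left] at this
    · have := (le_eig_of_pure h' (m + s)).trans (eig_le_of_pure hq h (m + s))
      rwa [add_sub_cancel_left] at this
  rw [e]
  exact hM

end

end Run7.h307.WM2
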